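import Mathlib

/-!
Radon-Nikodym compact spaces, quasi Radon-Nikodym compact spaces, continuous images of
Radon-Nikodym compact spaces, and the weight of a space, as in the problem file.
-/

namespace Run7.h310.RN

open Set Topology Cardinal

universe u

/-- `d` fragments the space `K`: for every nonempty `L ⊆ K` and every `ε > 0` there is an open
`U` with `U ∩ L` nonempty on which the supremum of `d` is smaller than `ε`. -/
def Fragments {K : Type u} [TopologicalSpace K] (d : K → K → ℝ) : Prop :=
  ∀ L : Set K, L.Nonempty → ∀ ε : ℝ, 0 < ε →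
    ∃ U : Set K, IsOpen U ∧ (U ∩ L).Nonempty ∧
      ∃ δ : ℝ, δ < ε ∧ ∀ x ∈ U ∩ L, ∀ y ∈ U ∩ L, d x y ≤ δ

/-- `K` is quasi Radon-Nikodym compact: it is compact Hausdorff, and some lower semicontinuous
symmetric `d : K × K → [0, ∞)` vanishing exactly on the diagonal fragments `K`. -/
def IsQuasiRN (K : Type u) [TopologicalSpace K] : Prop :=
  CompactSpace K ∧ T2Space K ∧ ∃ d : K → K → ℝ,
    (∀ x y, 0 ≤ d x y) ∧ (∀ x y, d x y = 0 ↔ x = y) ∧ (∀ x y, d x y = d y x) ∧
    LowerSemicontinuous (fun z : K × K => d z.1 z.2) ∧ Fragments d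

/-- `K` is Radon-Nikodym compact: it is compact Hausdorff, and some lower semicontinuous
metric on `K` fragments `K`. -/
def IsRN (K : Type u) [TopologicalSpace K] : Prop :=
  CompactSpace K ∧ T2Space K ∧ ∃ d : K → K → ℝ,
    (∀ x y, 0 ≤ d x y) ∧ (∀ x y, d x y = 0 ↔ x = y) ∧ (∀ x y, d x y = d y x) ∧
    (∀ x y z, d x z ≤ d x y + d y z) ∧
    LowerSemicontinuous (fun z : K × K => d z.1 z.2) ∧ Fragments d

/-- `K` is a (Hausdorff) continuous image of a Radon-Nikodym compact space. -/
def IsRNImage (K : Type u) [TopologicalSpace K] : Prop :=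
  T2Space K ∧ ∃ (R : Type u) (_ : TopologicalSpace R), IsRN R ∧
    ∃ q : R → K, Continuous q ∧ Function.Surjective q

/-- The weight of a space: the least cardinality of a base of its topology. -/
noncomputable def weight (K : Type u) [TopologicalSpace K] : Cardinal.{u} :=
  sInf {c : Cardinal.{u} | ∃ B : Set (Set K), TopologicalSpace.IsTopologicalBasis B ∧ #B = c}

end Run7.h310.RN
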