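import Pool.Agent.Run7.h310.RNDefs

/-!
If `K` is quasi Radon-Nikodym compact and `p : K → P` is continuous with totally disconnected
fibres and `P` is Radon-Nikodym compact, then `K` is Radon-Nikodym compact.
-/

namespace Run7.h310.RN

open Set Topology Filter

universe u v

section Sep

variable {K : Type u} {P : Type v} [TopologicalSpace K] [TopologicalSpace P]

/-- Separation of `x` from `y` over the ball of radius `r` about `p x`. -/
def Sep (p : K → P) (d : K → K → ℝ) (ρ : P → P → ℝ) (r : ℝ) (x y : K) : Prop :=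
  ∃ V W : Set K, IsOpen V ∧ IsOpen W ∧ (∀ k, ρ (p x) (p k) ≤ r → k ∈ V ∪ W) ∧
    (∀ v ∈ V, ∀ w ∈ W, r < d v w) ∧ x ∈ V ∧ y ∉ closure V

variable {p : K → P} {d : K → K → ℝ} {ρ : P → P → ℝ}

lemma Sep.anti {r s : ℝ} (hrs : r ≤ s) {x y : K} (h : Sep p d ρ s x y) : Sep p d ρ r x y := by
  obtain ⟨V, W, hV, hW, hc, hg, hx, hy⟩ := h
  exact ⟨V, W, hV, hW, fun k hk => hc k (hk.trans hrs), fun v hv w hw => hrs.trans_lt (hg v hv w hw),
    hx, hy⟩

lemma not_sep_self {r : ℝ} {x : K} : ¬ Sep p d ρ r x x := by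
  rintro ⟨V, W, hV, hW, hc, hg, hx, hy⟩
  exact hy (subset_closure hx)

lemma isClosed_ball (hρ : LowerSemicontinuous (fun z : P × P => ρ z.1 z.2)) (a : P) (r : ℝ) :
    IsClosed {z : P | ρ a z ≤ r} := by
  have h1 : IsClosed {z : P × P | ρ z.1 z.2 ≤ r} :=
    (lowerSemicontinuous_iff_isClosed_preimage.1 hρ r)
  exact h1.preimage (by fun_prop : Continuous fun z : P => (a, z))

lemma sep_of_lt [T3Space P] (hp : Continuous p)
    (hρ : LowerSemicontinuous (fun z : P × P => ρ z.1 z.2)) (h0 : ∀ a, ρ a a = 0)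
    {r : ℝ} (hr : 0 ≤ r) {x y : K} (h : r < ρ (p x) (p y)) : Sep p d ρ r x y := by
  have hcl := isClosed_ball hρ (p x) r
  have hy : p y ∉ {z : P | ρ (p x) z ≤ r} := by
    simpa using h
  have hsep : SeparatedNhds {z : P | ρ (p x) z ≤ r} {p y} := by
    have := (hcl.compl_mem_nhds hy)
    obtain ⟨C, hC, hCc, hCs⟩ := exists_mem_nhds_isClosed_subset this
    refine ⟨Cᶜ, interior C, hCc.isOpen_compl, isOpen_interior, ?_, ?_, ?_⟩
    · intro z hz hzC
      exact hCs hzC hz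
    · rintro z rfl
      exact mem_interior_iff_mem_nhds.2 hC
    · exact disjoint_compl_left.mono_right interior_subset
  obtain ⟨O, O', hO, hO', hsub, hsub', hdis⟩ := hsep
  refine ⟨p ⁻¹' O, ∅, hO.preimage hp, isOpen_empty, ?_, ?_, ?_, ?_⟩
  · intro k hk
    exact Or.inl (hsub hk)
  · intro v _ w hw
    exact hw.elim
  · apply hsub
    show ρ (p x) (p x) ≤ r
    rw [h0]; exact hr
  · intro hy'
    have hO'y : p ⁻¹' O' ∈ 𝓝 y := (hO'.preimage hp).mem_nhds (hsub' rfl)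
    obtain ⟨z, hz1, hz2⟩ := mem_closure_iff_nhds.1 hy' _ hO'y
    exact (Set.disjoint_left.1 hdis) hz2 hz1

lemma sep_triangle [T3Space P] (hp : Continuous p)
    (hρ : LowerSemicontinuous (fun z : P × P => ρ z.1 z.2)) (h0 : ∀ a, ρ a a = 0)
    (htri : ∀ a b c, ρ a c ≤ ρ a b + ρ b c) (hd0 : ∀ x, d x x = 0)
    {a b : ℝ} (ha : 0 ≤ a) (hb : 0 ≤ b) {x y z : K} (h : Sep p d ρ (a + b) x z) :
    Sep p d ρ a x y ∨ Sep p d ρ b y z := by
  by_cases hxy : a < ρ (p x) (p y)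
  · exact Or.inl (sep_of_lt hp hρ h0 ha hxy)
  push Not at hxy
  obtain ⟨V, W, hV, hW, hc, hg, hx, hz⟩ := h
  by_cases hy : y ∈ closure V
  · right
    refine ⟨V, W, hV, hW, ?_, ?_, ?_, hz⟩
    · intro k hk
      apply hc
      calc ρ (p x) (p k) ≤ ρ (p x) (p y) + ρ (p y) (p k) := htri _ _ _
        _ ≤ a + b := add_le_add hxy hk
    · intro v hv w hw
      exact lt_of_le_of_lt (by linarith) (hg v hv w hw)
    · rcases hc y (by linarith) with h1 | h1
      · exact h1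
      · exfalso
        obtain ⟨w, hw1, hw2⟩ := mem_closure_iff_nhds.1 hy W (hW.mem_nhds h1)
        have := hg w hw2 w hw1
        rw [hd0] at this
        linarith
  · left
    refine ⟨V, W, hV, hW, ?_, ?_, hx, hy⟩
    · intro k hk
      exact hc k (by linarith)
    · intro v hv w hw
      exact lt_of_le_of_lt (by linarith) (hg v hv w hw)

/-- Compactness together with lower semicontinuity. -/
lemma exists_radius (hρ : LowerSemicontinuous (fun z : P × P => ρ z.1 z.2))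
    {C : Set P} (hC : IsCompact C) {a₀ : P} {r : ℝ} (h : ∀ z ∈ C, r < ρ a₀ z) :
    ∃ r' : ℝ, r < r' ∧ ∀ᶠ a in 𝓝 a₀, ∀ z ∈ C, r' < ρ a z := by
  refine hC.induction_on (p := fun N : Set P => ∃ r' : ℝ, r < r' ∧ ∀ᶠ a in 𝓝 a₀, ∀ z ∈ N, r' < ρ a z)
    ?_ ?_ ?_ ?_
  · exact ⟨r + 1, by linarith, by simp⟩
  · rintro s t hst ⟨r', hr', ht⟩
    exact ⟨r', hr', ht.mono fun a ha z hz => ha z (hst hz)⟩
  · rintro s t ⟨r', hr', ht⟩ ⟨r'', hr'', ht'⟩
    refine ⟨min r' r'', lt_min hr' hr'', (ht.and ht').mono ?_⟩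
    rintro a ⟨h1, h2⟩ z (hz | hz)
    · exact (min_le_left _ _).trans_lt (h1 z hz)
    · exact (min_le_right _ _).trans_lt (h2 z hz)
  · intro z hz
    obtain ⟨r', hr1, hr2⟩ := exists_between (h z hz)
    have := hρ (a₀, z) r' hr2
    rw [nhds_prod_eq, eventually_prod_iff] at this
    obtain ⟨pa, hpa, pb, hpb, hab⟩ := this
    refine ⟨{w | pb w}, mem_nhdsWithin_of_mem_nhds hpb, r', hr1, ?_⟩
    exact hpa.mono fun a ha w hw => hab ha hw

lemma cover_eventually [CompactSpace K] (hp : Continuous p)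
    (hρ : LowerSemicontinuous (fun z : P × P => ρ z.1 z.2))
    {V W : Set K} (hV : IsOpen V) (hW : IsOpen W) {r : ℝ} {x : K}
    (hc : ∀ k, ρ (p x) (p k) ≤ r → k ∈ V ∪ W) :
    ∃ r' : ℝ, r < r' ∧ ∀ᶠ x' in 𝓝 x, ∀ k, ρ (p x') (p k) ≤ r' → k ∈ V ∪ W := by
  have hcomp : IsCompact (p '' (V ∪ W)ᶜ) :=
    ((hV.union hW).isClosed_compl.isCompact).image hp
  obtain ⟨r', hr', hev⟩ := exists_radius (a₀ := p x) (r := r) hρ hcomp (by
    rintro z ⟨k, hk, rfl⟩
    by_contra hcon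
    exact hk (hc k (not_lt.1 hcon)))
  refine ⟨r', hr', (hp.continuousAt.eventually hev).mono ?_⟩
  intro x' hx' k hk
  by_contra hcon
  exact absurd (hx' (p k) ⟨k, hcon, rfl⟩) (not_lt.2 hk)

lemma sep_eventually [CompactSpace K] (hp : Continuous p)
    (hρ : LowerSemicontinuous (fun z : P × P => ρ z.1 z.2)) {r : ℝ} {x y : K}
    (h : Sep p d ρ r x y) : ∀ᶠ q : K × K in 𝓝 (x, y), Sep p d ρ r q.1 q.2 := by
  obtain ⟨V, W, hV, hW, hc, hg, hx, hy⟩ := h
  obtain ⟨r', hr', hev⟩ := cover_eventually hp hρ hV hW hc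
  have h1 : ∀ᶠ q : K × K in 𝓝 (x, y), ∀ k, ρ (p q.1) (p k) ≤ r' → k ∈ V ∪ W :=
    (continuous_fst.tendsto (x, y)).eventually hev
  have h2 : ∀ᶠ q : K × K in 𝓝 (x, y), q.1 ∈ V :=
    (continuous_fst.tendsto (x, y)).eventually (hV.mem_nhds hx)
  have h3 : ∀ᶠ q : K × K in 𝓝 (x, y), q.2 ∈ (closure V)ᶜ :=
    (continuous_snd.tendsto (x, y)).eventually (isClosed_closure.isOpen_compl.mem_nhds hy)
  filter_upwards [h1, h2, h3] with q hq1 hq2 hq3
  exact ⟨V, W, hV, hW, fun k hk => hq1 k (hk.trans hr'.le), hg, hq2, hq3⟩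

/-- The one-sided distance. -/
noncomputable def E (p : K → P) (d : K → K → ℝ) (ρ : P → P → ℝ) (x y : K) : ℝ :=
  sSup {r : ℝ | r = 0 ∨ (0 ≤ r ∧ r ≤ 1 ∧ Sep p d ρ r x y)}

lemma E_bdd (x y : K) : BddAbove {r : ℝ | r = 0 ∨ (0 ≤ r ∧ r ≤ 1 ∧ Sep p d ρ r x y)} := by
  refine ⟨1, ?_⟩
  rintro r (rfl | ⟨_, h, _⟩)
  · exact zero_le_one
  · exact h

lemma E_ne (x y : K) : {r : ℝ | r = 0 ∨ (0 ≤ r ∧ r ≤ 1 ∧ Sep p d ρ r x y)}.Nonempty :=
  ⟨0, Or.inl rfl⟩

lemma E_nonneg (x y : K) : 0 ≤ E p d ρ x y := le_csSup (E_bdd x y) (Or.inl rfl)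

lemma le_E {r : ℝ} {x y : K} (h0 : 0 ≤ r) (h1 : r ≤ 1) (h : Sep p d ρ r x y) :
    r ≤ E p d ρ x y := le_csSup (E_bdd x y) (Or.inr ⟨h0, h1, h⟩)

lemma E_le {c : ℝ} (hc : 0 ≤ c) {x y : K}
    (h : ∀ r, 0 ≤ r → r ≤ 1 → Sep p d ρ r x y → r ≤ c) : E p d ρ x y ≤ c := by
  apply csSup_le (E_ne x y)
  rintro r (rfl | ⟨h0, h1, h2⟩)
  · exact hc
  · exact h r h0 h1 h2

lemma E_self (x : K) : E p d ρ x x = 0 :=
  le_antisymm (E_le le_rfl fun _ _ _ h => (not_sep_self h).elim) (E_nonneg x x)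

lemma E_lsc [CompactSpace K] (hp : Continuous p)
    (hρ : LowerSemicontinuous (fun z : P × P => ρ z.1 z.2)) :
    LowerSemicontinuous (fun q : K × K => E p d ρ q.1 q.2) := by
  rintro ⟨x, y⟩ t ht
  obtain ⟨r, hr, htr⟩ := exists_lt_of_lt_csSup (E_ne x y) ht
  rcases hr with rfl | ⟨h0, h1, h2⟩
  · exact Eventually.of_forall fun q => htr.trans_le (E_nonneg _ _)
  · exact (sep_eventually hp hρ h2).mono fun q hq => htr.trans_le (le_E h0 h1 hq)

lemma E_triangle [T3Space P] (hp : Continuous p)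
    (hρ : LowerSemicontinuous (fun z : P × P => ρ z.1 z.2)) (h0 : ∀ a, ρ a a = 0)
    (htri : ∀ a b c, ρ a c ≤ ρ a b + ρ b c) (hd0 : ∀ x, d x x = 0) (x y z : K) :
    E p d ρ x z ≤ E p d ρ x y + E p d ρ y z := by
  refine E_le (add_nonneg (E_nonneg _ _) (E_nonneg _ _)) ?_
  intro r hr0 hr1 hs
  by_contra hcon
  push Not at hcon
  set e := (r - (E p d ρ x y + E p d ρ y z)) / 2 with he
  have he0 : 0 < e := by rw [he]; linarith
  have hn1 := E_nonneg (p := p) (d := d) (ρ := ρ) x y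
  have hn2 := E_nonneg (p := p) (d := d) (ρ := ρ) y z
  have hsum : (E p d ρ x y + e) + (E p d ρ y z + e) = r := by rw [he]; ring
  rw [← hsum] at hs
  rcases sep_triangle (y := y) hp hρ h0 htri hd0 (by linarith) (by linarith) hs with h | h
  · have := le_E (by linarith) (by linarith) h
    linarith
  · have := le_E (by linarith) (by linarith) h
    linarith

lemma Fragments.pull {f : K → P} (hf : Continuous f) (hρ : Fragments ρ) :
    Fragments (fun x y : K => ρ (f x) (f y)) := by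
  intro L hL ε hε
  obtain ⟨U, hU, ⟨z, hzU, k, hk, hkz⟩, δ, hδ, h⟩ := hρ (f '' L) (hL.image f) ε hε
  refine ⟨f ⁻¹' U, hU.preimage hf, ⟨k, ?_, hk⟩, δ, hδ, ?_⟩
  · show f k ∈ U
    rw [hkz]; exact hzU
  · rintro x ⟨hx, hxL⟩ y ⟨hy, hyL⟩
    exact h (f x) ⟨hx, mem_image_of_mem f hxL⟩ (f y) ⟨hy, mem_image_of_mem f hyL⟩

lemma Fragments.max {d d' : K → K → ℝ} (hd : Fragments d) (hd' : Fragments d') :
    Fragments (fun x y : K => Max.max (d x y) (d' x y)) := by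
  intro L hL ε hε
  obtain ⟨U, hU, hUL, δ, hδ, h⟩ := hd L hL ε hε
  obtain ⟨U', hU', hUL', δ', hδ', h'⟩ := hd' (U ∩ L) hUL ε hε
  refine ⟨U' ∩ U, hU'.inter hU, by rwa [inter_assoc], Max.max δ δ', max_lt hδ hδ', ?_⟩
  rintro x ⟨⟨hx1, hx2⟩, hx3⟩ y ⟨⟨hy1, hy2⟩, hy3⟩
  exact max_le_max (h x ⟨hx2, hx3⟩ y ⟨hy2, hy3⟩) (h' x ⟨hx1, hx2, hx3⟩ y ⟨hy1, hy2, hy3⟩)

lemma E_frag (hp : Continuous p) (hd : Fragments d) (hρ : Fragments ρ) (hd0 : ∀ x, d x x = 0) :
    Fragments (E p d ρ) := by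
  intro L hL ε hε
  obtain ⟨U, hU, hUL, δ, hδ, h⟩ := (hd.max (hρ.pull hp)) L hL ε hε
  refine ⟨U, hU, hUL, δ, hδ, ?_⟩
  have hδ0 : 0 ≤ δ := by
    obtain ⟨x, hx⟩ := hUL
    have := (le_max_left _ _).trans (h x hx x hx)
    rwa [hd0] at this
  intro x hx y hy
  refine E_le hδ0 ?_
  rintro r hr0 hr1 ⟨V, W, hV, hW, hc, hg, hxV, hyV⟩
  by_contra hcon
  push Not at hcon
  have hxy := h x hx y hy
  have h1 : ρ (p x) (p y) ≤ r := ((le_max_right _ _).trans hxy).trans hcon.le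
  have h2 : d x y ≤ δ := (le_max_left _ _).trans hxy
  rcases hc y h1 with h3 | h3
  · exact hyV (subset_closure h3)
  · have := hg x hxV y h3
    linarith

lemma exists_gap {X : Type*} [TopologicalSpace X] {f : X → ℝ} (hf : LowerSemicontinuous f)
    {C : Set X} (hC : IsCompact C) {r : ℝ} (h : ∀ z ∈ C, r < f z) :
    ∃ r' : ℝ, r < r' ∧ ∀ z ∈ C, r' < f z := by
  refine hC.induction_on (p := fun N : Set X => ∃ r' : ℝ, r < r' ∧ ∀ z ∈ N, r' < f z)
    ?_ ?_ ?_ ?_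
  · exact ⟨r + 1, by linarith, by simp⟩
  · rintro s t hst ⟨r', hr', ht⟩
    exact ⟨r', hr', fun z hz => ht z (hst hz)⟩
  · rintro s t ⟨r', hr', ht⟩ ⟨r'', hr'', ht'⟩
    refine ⟨min r' r'', lt_min hr' hr'', ?_⟩
    rintro z (hz | hz)
    · exact (min_le_left _ _).trans_lt (ht z hz)
    · exact (min_le_right _ _).trans_lt (ht' z hz)
  · intro z hz
    obtain ⟨r', hr1, hr2⟩ := exists_between (h z hz)
    exact ⟨{w | r' < f w}, mem_nhdsWithin_of_mem_nhds (hf z r' hr2), r', hr1, fun w hw => hw⟩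

/-- Points of a fibre are separated with a positive gap. -/
lemma sep_fibre [CompactSpace K] [T2Space K] [T1Space P] (hp : Continuous p)
    (hρ : LowerSemicontinuous (fun z : P × P => ρ z.1 z.2))
    (hρ1 : ∀ a b, ρ a b ≤ 0 → a = b)
    (hd : LowerSemicontinuous (fun z : K × K => d z.1 z.2)) (hd0 : ∀ x, d x x = 0)
    (hd1 : ∀ x y, x ≠ y → 0 < d x y)
    {x y : K} (hxy : x ≠ y) (hpxy : p x = p y)
    (hfib : IsTotallyDisconnected (p ⁻¹' {p x})) :
    ∃ r : ℝ, 0 < r ∧ r ≤ 1 ∧ Sep p d ρ r x y := by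
  set F : Set K := p ⁻¹' {p x} with hF
  have hFc : IsClosed F := isClosed_singleton.preimage hp
  haveI : CompactSpace F := isCompact_iff_compactSpace.1 hFc.isCompact
  haveI : TotallyDisconnectedSpace F := totallyDisconnectedSpace_subtype_iff.2 hfib
  have hxF : x ∈ F := rfl
  have hyF : y ∈ F := hpxy.symm
  have hne : (⟨x, hxF⟩ : F) ≠ ⟨y, hyF⟩ := fun h => hxy (congrArg Subtype.val h)
  obtain ⟨C, hC, hxC, hyC⟩ := exists_isClopen_of_totally_separated hne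
  have hV : IsCompact (Subtype.val '' C) := hC.isClosed.isCompact.image continuous_subtype_val
  have hW : IsCompact (Subtype.val '' Cᶜ) :=
    hC.compl.isClosed.isCompact.image continuous_subtype_val
  obtain ⟨ε, hε, hgap⟩ : ∃ ε : ℝ, 0 < ε ∧ ∀ z ∈ (Subtype.val '' C : Set K) ×ˢ
      (Subtype.val '' Cᶜ : Set K), ε < d z.1 z.2 := by
    refine exists_gap hd (hV.prod hW) ?_
    rintro ⟨v, w⟩ ⟨⟨v', hv', hvv⟩, ⟨w', hw', hww⟩⟩
    simp only at hvv hww
    apply hd1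
    rintro h
    rw [← hvv, ← hww] at h
    have : v' = w' := Subtype.ext h
    exact hw' (this ▸ hv')
  obtain ⟨V, W, hVo, hWo, hCV, hCW, hVW⟩ := generalized_tube_lemma hV hW
    (hd.isOpen_preimage ε) (by
      rintro z hz
      exact hgap z hz)
  have hcov : ∀ k, ρ (p x) (p k) ≤ 0 → k ∈ V ∪ W := by
    intro k hk
    have hkF : k ∈ F := (hρ1 _ _ hk).symm
    by_cases hkC : (⟨k, hkF⟩ : F) ∈ C
    · exact Or.inl (hCV ⟨_, hkC, rfl⟩)
    · exact Or.inr (hCW ⟨_, hkC, rfl⟩)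
  obtain ⟨r', hr', hev⟩ := cover_eventually hp hρ hVo hWo hcov
  have hcov' := hev.self_of_nhds
  have hyW : y ∈ W := hCW ⟨⟨y, hyF⟩, hyC, rfl⟩
  have hxV : x ∈ V := hCV ⟨⟨x, hxF⟩, hxC, rfl⟩
  have hgap' : ∀ v ∈ V, ∀ w ∈ W, ε < d v w := fun v hv w hw => hVW (mk_mem_prod hv hw)
  refine ⟨min (min r' ε) 1, lt_min (lt_min hr' hε) one_pos, min_le_right _ _, V, W, hVo, hWo,
    ?_, ?_, hxV, ?_⟩
  · intro k hk
    exact hcov' k (hk.trans ((min_le_left _ _).trans (min_le_left _ _)))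
  · intro v hv w hw
    exact ((min_le_left _ _).trans (min_le_right _ _)).trans_lt (hgap' v hv w hw)
  · intro hcl
    obtain ⟨z, hz1, hz2⟩ := mem_closure_iff_nhds.1 hcl W (hWo.mem_nhds hyW)
    have := hgap' z hz2 z hz1
    rw [hd0] at this
    linarith

end Sep

/-- **Light maps.** -/
theorem isRN_of_light {K : Type u} {P : Type v} [TopologicalSpace K] [TopologicalSpace P]
    (hK : IsQuasiRN K) (hP : IsRN P) (p : K → P) (hp : Continuous p)
    (hfib : ∀ z, IsTotallyDisconnected (p ⁻¹' {z})) : IsRN K := by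
  obtain ⟨hKc, hKt, d, hd0, hd1, hds, hdl, hdf⟩ := hK
  obtain ⟨hPc, hPt, ρ, hρ0, hρ1, hρs, hρt, hρl, hρf⟩ := hP
  have hdd : ∀ x, d x x = 0 := fun x => (hd1 x x).2 rfl
  have hρρ : ∀ x, ρ x x = 0 := fun x => (hρ1 x x).2 rfl
  have hE := E_lsc (d := d) hp hρl
  refine ⟨hKc, hKt, fun x y => Max.max (E p d ρ x y) (E p d ρ y x), ?_, ?_, ?_, ?_, ?_, ?_⟩
  · intro x y
    exact (E_nonneg x y).trans (le_max_left _ _)
  · intro x y
    constructor
    · intro h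
      by_contra hxy
      have hE0 : E p d ρ x y ≤ 0 := (le_max_left _ _).trans h.le
      by_cases hpxy : p x = p y
      · obtain ⟨r, hr0, hr1, hs⟩ := sep_fibre hp hρl
          (fun a b hab => (hρ1 a b).1 (le_antisymm hab (hρ0 a b))) hdl hdd
          (fun a b hab => lt_of_le_of_ne (hd0 a b) fun h => hab ((hd1 a b).1 h.symm))
          hxy hpxy (hfib (p x))
        exact absurd (le_E hr0.le hr1 hs) (not_le.2 (hE0.trans_lt hr0))
      · have hpos : 0 < ρ (p x) (p y) :=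
          lt_of_le_of_ne (hρ0 _ _) fun h => hpxy ((hρ1 _ _).1 h.symm)
        have hr0 : 0 < min (ρ (p x) (p y) / 2) 1 := lt_min (by linarith) one_pos
        have hlt : min (ρ (p x) (p y) / 2) 1 < ρ (p x) (p y) :=
          (min_le_left _ _).trans_lt (by linarith)
        exact absurd (le_E hr0.le (min_le_right _ _) (sep_of_lt (d := d) hp hρl hρρ hr0.le hlt))
          (not_le.2 (hE0.trans_lt hr0))
    · rintro rfl
      simp only [E_self, max_self]
  · intro x y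
    exact max_comm _ _
  · intro x y z
    have h1 := E_triangle (d := d) hp hρl hρρ hρt hdd x y z
    have h2 := E_triangle (d := d) hp hρl hρρ hρt hdd z y x
    apply max_le
    · exact h1.trans (add_le_add (le_max_left _ _) (le_max_left _ _))
    · rw [add_comm] at h2
      exact h2.trans (add_le_add (le_max_right _ _) (le_max_right _ _))
  · have hE0 := LowerSemicontinuous.comp (f := fun q : K × K => E p d ρ q.1 q.2)
      (g := (Prod.swap : K × K → K × K)) hE continuous_swap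
    have hE' : LowerSemicontinuous (fun q : K × K => E p d ρ q.2 q.1) := hE0
    exact hE.sup hE'
  · have h1 := E_frag hp hdf hρf hdd
    have h2 : Fragments (fun x y => E p d ρ y x) := by
      intro L hL ε hε
      obtain ⟨U, hU, hUL, δ, hδ, h⟩ := h1 L hL ε hε
      exact ⟨U, hU, hUL, δ, hδ, fun x hx y hy => h y hy x hx⟩
    exact h1.max h2

end Run7.h310.RN
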