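import Pool.Agent.Run7.h310.RNLight

/-!
Products, subspaces and continuous images of Radon-Nikodym and quasi Radon-Nikodym compact
spaces; images of Radon-Nikodym compact spaces and maps with totally disconnected fibres; weight.
-/

namespace Run7.h310.RN

open Set Topology Filter Cardinal

universe u v w

section Pull

variable {K : Type u} {P : Type v} [TopologicalSpace K] [TopologicalSpace P]

lemma lsc_pull {ρ : P → P → ℝ} (hρ : LowerSemicontinuous (fun z : P × P => ρ z.1 z.2))
    {f : K → P} (hf : Continuous f) :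
    LowerSemicontinuous (fun z : K × K => ρ (f z.1) (f z.2)) := by
  have h0 := LowerSemicontinuous.comp (f := fun q : P × P => ρ q.1 q.2)
      (g := fun z : K × K => ((f z.1, f z.2) : P × P)) hρ (by fun_prop)
  exact h0

/-- Closed subspaces (compact spaces with a continuous injection). -/
theorem IsQuasiRN.of_injective [CompactSpace K] (hP : IsQuasiRN P) (f : K → P)
    (hf : Continuous f) (hi : Function.Injective f) : IsQuasiRN K := by
  obtain ⟨hPc, hPt, ρ, hρ0, hρ1, hρs, hρl, hρf⟩ := hP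
  exact ⟨inferInstance, T2Space.of_injective_continuous hi hf, fun x y => ρ (f x) (f y),
    fun x y => hρ0 _ _, fun x y => (hρ1 _ _).trans hi.eq_iff, fun x y => hρs _ _,
    lsc_pull hρl hf, hρf.pull hf⟩

theorem IsRN.of_injective [CompactSpace K] (hP : IsRN P) (f : K → P)
    (hf : Continuous f) (hi : Function.Injective f) : IsRN K := by
  obtain ⟨hPc, hPt, ρ, hρ0, hρ1, hρs, hρt, hρl, hρf⟩ := hP
  exact ⟨inferInstance, T2Space.of_injective_continuous hi hf, fun x y => ρ (f x) (f y),
    fun x y => hρ0 _ _, fun x y => (hρ1 _ _).trans hi.eq_iff, fun x y => hρs _ _,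
    fun x y z => hρt _ _ _, lsc_pull hρl hf, hρf.pull hf⟩

theorem IsQuasiRN.prod (hK : IsQuasiRN K) (hP : IsQuasiRN P) : IsQuasiRN (K × P) := by
  obtain ⟨hKc, hKt, d, hd0, hd1, hds, hdl, hdf⟩ := hK
  obtain ⟨hPc, hPt, ρ, hρ0, hρ1, hρs, hρl, hρf⟩ := hP
  refine ⟨inferInstance, inferInstance, fun x y => max (d x.1 y.1) (ρ x.2 y.2),
    fun x y => (hd0 _ _).trans (le_max_left _ _), ?_, ?_, ?_, ?_⟩
  · rintro ⟨x, a⟩ ⟨y, b⟩
    constructor
    · intro h
      have h1 : d x y = 0 := le_antisymm ((le_max_left _ _).trans h.le) (hd0 _ _)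
      have h2 : ρ a b = 0 := le_antisymm ((le_max_right _ _).trans h.le) (hρ0 _ _)
      rw [(hd1 _ _).1 h1, (hρ1 _ _).1 h2]
    · intro h
      obtain ⟨rfl, rfl⟩ := Prod.mk.inj h
      simp only [(hd1 _ _).2 rfl, (hρ1 _ _).2 rfl, max_self]
  · intro x y
    simp only [hds x.1 y.1, hρs x.2 y.2]
  · exact (lsc_pull hdl continuous_fst).sup (lsc_pull hρl continuous_snd)
  · exact (hdf.pull continuous_fst).max (hρf.pull continuous_snd)

theorem IsRN.prod (hK : IsRN K) (hP : IsRN P) : IsRN (K × P) := by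
  obtain ⟨hKc, hKt, d, hd0, hd1, hds, hdt, hdl, hdf⟩ := hK
  obtain ⟨hPc, hPt, ρ, hρ0, hρ1, hρs, hρt, hρl, hρf⟩ := hP
  refine ⟨inferInstance, inferInstance, fun x y => max (d x.1 y.1) (ρ x.2 y.2),
    fun x y => (hd0 _ _).trans (le_max_left _ _), ?_, ?_, ?_, ?_, ?_⟩
  · rintro ⟨x, a⟩ ⟨y, b⟩
    constructor
    · intro h
      have h1 : d x y = 0 := le_antisymm ((le_max_left _ _).trans h.le) (hd0 _ _)
      have h2 : ρ a b = 0 := le_antisymm ((le_max_right _ _).trans h.le) (hρ0 _ _)
      rw [(hd1 _ _).1 h1, (hρ1 _ _).1 h2]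
    · intro h
      obtain ⟨rfl, rfl⟩ := Prod.mk.inj h
      simp only [(hd1 _ _).2 rfl, (hρ1 _ _).2 rfl, max_self]
  · intro x y
    simp only [hds x.1 y.1, hρs x.2 y.2]
  · intro x y z
    apply max_le
    · exact (hdt _ y.1 _).trans (add_le_add (le_max_left _ _) (le_max_left _ _))
    · exact (hρt _ y.2 _).trans (add_le_add (le_max_right _ _) (le_max_right _ _))
  · exact (lsc_pull hdl continuous_fst).sup (lsc_pull hρl continuous_snd)
  · exact (hdf.pull continuous_fst).max (hρf.pull continuous_snd)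

lemma IsRN.isQuasiRN (hK : IsRN K) : IsQuasiRN K := by
  obtain ⟨hKc, hKt, d, hd0, hd1, hds, hdt, hdl, hdf⟩ := hK
  exact ⟨hKc, hKt, d, hd0, hd1, hds, hdl, hdf⟩

end Pull

section Image

variable {K L : Type u} [TopologicalSpace K] [TopologicalSpace L]

/-- Continuous images of quasi Radon-Nikodym compact spaces (Arvanitakis). -/
theorem IsQuasiRN.image [T2Space K] (hL : IsQuasiRN L) (q : L → K) (hq : Continuous q)
    (hs : Function.Surjective q) : IsQuasiRN K := by
  obtain ⟨hLc, hLt, d, hd0, hd1, hds, hdl, hdf⟩ := hL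
  have hKc : CompactSpace K := hs.compactSpace hq
  have hmin : ∀ x y : K, ∃ z : L × L, (q z.1 = x ∧ q z.2 = y) ∧
      ∀ w : L × L, (q w.1 = x ∧ q w.2 = y) → d z.1 z.2 ≤ d w.1 w.2 := by
    intro x y
    have hne : {z : L × L | q z.1 = x ∧ q z.2 = y}.Nonempty := by
      obtain ⟨a, ha⟩ := hs x
      obtain ⟨b, hb⟩ := hs y
      exact ⟨(a, b), ha, hb⟩
    have hcl : IsClosed {z : L × L | q z.1 = x ∧ q z.2 = y} :=
      (isClosed_eq (hq.comp continuous_fst) continuous_const).inter
        (isClosed_eq (hq.comp continuous_snd) continuous_const)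
    obtain ⟨z, hz, hzm⟩ := (hdl.lowerSemicontinuousOn _).exists_isMinOn hne hcl.isCompact
    exact ⟨z, hz, fun w hw => hzm hw⟩
  choose Z hZ hZm using hmin
  refine ⟨hKc, inferInstance, fun x y => d (Z x y).1 (Z x y).2, fun x y => hd0 _ _, ?_, ?_, ?_, ?_⟩
  · intro x y
    constructor
    · intro h
      have := (hd1 _ _).1 h
      exact (hZ x y).1.symm.trans ((congrArg q this).trans (hZ x y).2)
    · rintro rfl
      obtain ⟨a, ha⟩ := hs x
      have h1 : d (Z x x).1 (Z x x).2 ≤ d a a := hZm x x (a, a) ⟨ha, ha⟩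
      rw [(hd1 a a).2 rfl] at h1
      exact le_antisymm h1 (hd0 _ _)
  · intro x y
    apply le_antisymm
    · have := hZm x y ((Z y x).2, (Z y x).1) ⟨(hZ y x).2, (hZ y x).1⟩
      exact this.trans (hds _ _).le
    · have := hZm y x ((Z x y).2, (Z x y).1) ⟨(hZ x y).2, (hZ x y).1⟩
      exact this.trans (hds _ _).le
  · rw [lowerSemicontinuous_iff_isClosed_preimage]
    intro t
    have h1 : IsClosed {z : L × L | d z.1 z.2 ≤ t} := hdl.isClosed_preimage t
    have h2 : (fun z : K × K => d (Z z.1 z.2).1 (Z z.1 z.2).2) ⁻¹' Set.Iic t =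
        Prod.map q q '' {z : L × L | d z.1 z.2 ≤ t} := by
      ext ⟨x, y⟩
      constructor
      · intro h
        exact ⟨Z x y, h, Prod.ext (hZ x y).1 (hZ x y).2⟩
      · rintro ⟨⟨a, b⟩, hab, h⟩
        obtain ⟨rfl, rfl⟩ := Prod.mk.inj h
        exact (hZm _ _ (a, b) ⟨rfl, rfl⟩).trans hab
    rw [h2]
    exact (h1.isCompact.image (hq.prodMap hq)).isClosed
  · intro S hS ε hε
    set A : Set K := closure S with hA
    have hAc : CompactSpace A := isCompact_iff_compactSpace.1 isClosed_closure.isCompact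
    set D : Set L := q ⁻¹' A with hD
    have hDc : CompactSpace D :=
      isCompact_iff_compactSpace.1 (isClosed_closure.preimage hq).isCompact
    let X : D → A := fun l => ⟨q l.1, l.2⟩
    have hX : Continuous X := by fun_prop
    have hXs : Function.Surjective X := by
      rintro ⟨a, ha⟩
      obtain ⟨l, rfl⟩ := hs a
      exact ⟨⟨l, ha⟩, rfl⟩
    obtain ⟨E, hEc, hEi, hEm⟩ := exists_compact_surjective_zorn_subset hX hXs
    obtain ⟨U, hU, ⟨l, hlU, ⟨e, heE, hel⟩⟩, δ, hδ, h⟩ :=
      hdf (Subtype.val '' E) (by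
        obtain ⟨s, hs⟩ := hS
        have : (⟨s, subset_closure hs⟩ : A) ∈ X '' E := by rw [hEi]; exact mem_univ _
        obtain ⟨e, he, _⟩ := this
        exact ⟨_, e, he, rfl⟩) ε hε
    have hE0 := hEm {e : E | (e.1.1 : L) ∉ U} (by
      intro hcon
      have : (⟨e, heE⟩ : E) ∈ {e : E | (e.1.1 : L) ∉ U} := by rw [hcon]; exact mem_univ _
      apply this
      show (e : L) ∈ U
      rw [hel]; exact hlU) (by
      exact hU.isClosed_compl.preimage (by fun_prop : Continuous fun e : E => (e.1.1 : L)))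
    obtain ⟨a, ha⟩ : ∃ a : A, a ∉ E.domRestrict X '' {e : E | (e.1.1 : L) ∉ U} := by
      by_contra hcon
      push Not at hcon
      exact hE0 (eq_univ_of_forall hcon)
    have hCc : IsCompact (Subtype.val '' E : Set L) :=
      (isCompact_iff_compactSpace.2 hEc).image continuous_subtype_val
    have hZc : IsClosed (q '' ((Subtype.val '' E : Set L) \ U)) :=
      ((hCc.diff hU).image hq).isClosed
    have haZ : (a : K) ∉ q '' ((Subtype.val '' E : Set L) \ U) := by
      rintro ⟨m, ⟨⟨e', he', rfl⟩, hmU⟩, hma⟩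
      exact ha ⟨⟨e', he'⟩, hmU, Subtype.ext hma⟩
    refine ⟨(q '' ((Subtype.val '' E : Set L) \ U))ᶜ, hZc.isOpen_compl, ?_, δ, hδ, ?_⟩
    · have := mem_closure_iff_nhds.1 a.2 _ (hZc.isOpen_compl.mem_nhds haZ)
      exact this
    · have key : ∀ x ∈ (q '' ((Subtype.val '' E : Set L) \ U))ᶜ ∩ S,
          ∃ m ∈ U ∩ (Subtype.val '' E : Set L), q m = x := by
        rintro x ⟨hx1, hx2⟩
        have : (⟨x, subset_closure hx2⟩ : A) ∈ X '' E := by rw [hEi]; exact mem_univ _
        obtain ⟨e', he', hex⟩ := this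
        have hqx : q e'.1 = x := congrArg Subtype.val hex
        refine ⟨e'.1, ⟨?_, e', he', rfl⟩, hqx⟩
        by_contra hcon
        exact hx1 ⟨e'.1, ⟨⟨e', he', rfl⟩, hcon⟩, hqx⟩
      intro x hx y hy
      obtain ⟨m, hm, hmx⟩ := key x hx
      obtain ⟨n, hn, hny⟩ := key y hy
      exact (hZm x y (m, n) ⟨hmx, hny⟩).trans (h m hm n hn)

end Image

/-- A quasi Radon-Nikodym compact space with a light map to a continuous image of a
Radon-Nikodym compact space is itself such an image. -/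
theorem isRNImage_of_light {K T : Type u} [TopologicalSpace K] [TopologicalSpace T]
    (hK : IsQuasiRN K) (hT : IsRNImage T) (p : K → T) (hp : Continuous p)
    (hfib : ∀ z, IsTotallyDisconnected (p ⁻¹' {z})) : IsRNImage K := by
  obtain ⟨hTt, S, _, hS, q, hq, hqs⟩ := hT
  have hKc : CompactSpace K := hK.1
  have hKt : T2Space K := hK.2.1
  have hSc : CompactSpace S := hS.1
  have hSt : T2Space S := hS.2.1
  let X : Set (K × S) := {z | p z.1 = q z.2}
  have hX : IsClosed X := isClosed_eq (hp.comp continuous_fst) (hq.comp continuous_snd)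
  have hXc : CompactSpace X := isCompact_iff_compactSpace.1 hX.isCompact
  have hXq : IsQuasiRN X :=
    (hK.prod hS.isQuasiRN).of_injective (Subtype.val : X → K × S) continuous_subtype_val
      Subtype.val_injective
  have hXR : IsRN X := by
    refine isRN_of_light hXq hS (fun z : X => z.1.2) (by fun_prop) ?_
    intro s
    have h1 : Set.MapsTo (fun z : X => z.1.1) ((fun z : X => z.1.2) ⁻¹' {s}) (p ⁻¹' {q s}) := by
      rintro ⟨⟨k, s'⟩, hz⟩ (rfl : s' = s)
      exact hz
    intro t ht htc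
    have h2 : ((fun z : X => z.1.1) '' t).Subsingleton :=
      hfib (q s) _ ((Set.image_mono ht).trans h1.image_subset)
        (htc.image _ (by fun_prop))
    rintro ⟨⟨k, s'⟩, hz⟩ hzt ⟨⟨k', s''⟩, hz'⟩ hzt'
    have hk : k = k' := h2 ⟨_, hzt, rfl⟩ ⟨_, hzt', rfl⟩
    have hs1 : s' = s := ht hzt
    have hs2 : s'' = s := ht hzt'
    subst hk hs1 hs2
    rfl
  refine ⟨hKt, X, inferInstance, hXR, fun z => z.1.1, by fun_prop, ?_⟩
  intro k
  obtain ⟨s, hs⟩ := hqs (p k)
  exact ⟨⟨(k, s), hs.symm⟩, rfl⟩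

theorem IsRNImage.prod {K T : Type u} [TopologicalSpace K] [TopologicalSpace T]
    (hK : IsRNImage K) (hT : IsRNImage T) : IsRNImage (K × T) := by
  obtain ⟨hKt, R, _, hR, q, hq, hqs⟩ := hK
  obtain ⟨hTt, R', _, hR', q', hq', hqs'⟩ := hT
  refine ⟨inferInstance, R × R', inferInstance, hR.prod hR', Prod.map q q', hq.prodMap hq',
    hqs.prodMap hqs'⟩

section Weight

lemma exists_basis_weight (K : Type u) [TopologicalSpace K] :
    ∃ B : Set (Set K), TopologicalSpace.IsTopologicalBasis B ∧ #B = weight K := by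
  have : weight K ∈ {c : Cardinal.{u} | ∃ B : Set (Set K),
      TopologicalSpace.IsTopologicalBasis B ∧ #B = c} :=
    csInf_mem ⟨_, _, TopologicalSpace.isTopologicalBasis_opens, rfl⟩
  exact this

lemma weight_le_of_inducing {K M : Type u} [TopologicalSpace K] [TopologicalSpace M]
    {f : K → M} (hf : IsInducing f) : weight K ≤ weight M := by
  obtain ⟨B, hB, hBc⟩ := exists_basis_weight M
  have h1 := hB.isInducing hf
  have h2 : weight K ≤ #(preimage f '' B : Set (Set K)) := csInf_le' ⟨_, h1, rfl⟩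
  refine h2.trans ?_
  rw [← hBc]
  exact mk_image_le

end Weight

end Run7.h310.RN
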